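import Pool.Agent.W682.BQ.Stm
import Pool.Agent.W932.IW.Reg

/-! Project BQ, part JB: derivatives of the functions of `(x, y)`. -/

set_option autoImplicit false

open MeasureTheory Set Filter Topology

namespace Pool.Agent.W696.BQ.JB

open Pool.Agent.W488.IW Pool.Agent.W488.IX Pool.Agent.W682.BQ
open Pool.Agent.W932.IW.Reg

/-- composition of a function of one variable with a function of two variables -/
theorem comp1 {φ : ℝ → ℝ} {c : ℝ} {f : ℝ × ℝ → ℝ} {f' : ℝ × ℝ →L[ℝ] ℝ} {z : ℝ × ℝ}
    (h : HasDerivAt φ c (f z)) (hf : HasFDerivAt f f' z) :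
    HasFDerivAt (fun w => φ (f w)) (c • f') z :=
  h.comp_hasFDerivAt z hf

theorem main : S_JB := by
  intro κ l η hB hl x y ε hx hy
  obtain ⟨M, p1, p2, hM⟩ := kappa hB.bump
  have hs : HasFDerivAt (fun z : ℝ × ℝ => z.1 + z.2)
      (ContinuousLinearMap.fst ℝ ℝ ℝ + ContinuousLinearMap.snd ℝ ℝ ℝ) (x, y) :=
    hasFDerivAt_fst.add hasFDerivAt_snd
  have hd : HasFDerivAt (fun z : ℝ × ℝ => z.1 - z.2)
      (ContinuousLinearMap.fst ℝ ℝ ℝ - ContinuousLinearMap.snd ℝ ℝ ℝ) (x, y) :=
    hasFDerivAt_fst.sub hasFDerivAt_snd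
  have h1 : HasFDerivAt (fun z : ℝ × ℝ => z.1) (ContinuousLinearMap.fst ℝ ℝ ℝ) (x, y) :=
    hasFDerivAt_fst
  have h2 : HasFDerivAt (fun z : ℝ × ℝ => z.2) (ContinuousLinearMap.snd ℝ ℝ ℝ) (x, y) :=
    hasFDerivAt_snd
  have ehh := comp1 (hh_der p2 (x + y)) hs
  have eom := comp1 (om_der p1 (x + y)) hs
  have ehh1 := comp1 (p2.der (x + y)) hs
  have eom1 := comp1 (p1.der (x + y)) hs
  have hid := hh_id hB.bump p1 p2 (x + y)
  have hlk : l x * κ (x + y) = κ (x + y) := by
    rcases le_or_gt x 2 with h | h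
    · rw [hl.one x h, one_mul]
    · rw [hB.bump.high (x + y) (by linarith), mul_zero]
  have hlo : om1 κ (x + y) - om1 κ 2 * (1 - l x) = l x * om1 κ (x + y) := by
    rcases le_or_gt x 2 with h | h
    · rw [hl.one x h]; ring
    · rw [p1.high (x + y) (by linarith)]; ring
  refine ⟨?_, ?_, ?_, ?_, ?_⟩
  · have h := ((hd.mul ehh).add eom).const_mul (1 / 2)
    have e : (fun z : ℝ × ℝ => fI κ z.1 z.2) =
        fun z : ℝ × ℝ => 1 / 2 * ((z.1 - z.2) * hh κ (z.1 + z.2) + om κ (z.1 + z.2)) := by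
      funext z
      unfold fI
      ring
    rw [e]
    refine h.congr_fderiv ?_
    ext
    · simp [lin]
      linear_combination (1 / 2) * hid
    · simp [lin]
      linear_combination (-1 / 2) * hid
  · have h := h1.mul ehh1
    refine h.congr_fderiv ?_
    ext
    · simp [lin]; ring
    · simp [lin]; ring
  · have h := eom1.sub (h2.mul ehh1)
    have hxy : x + y ≠ 0 := by positivity
    refine h.congr_fderiv ?_
    ext
    · simp [lin]; field_simp; ring
    · simp [lin]; field_simp; ring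
  · have hl1 : HasDerivAt l (deriv l x) x :=
      ((hl.c1.differentiable (by norm_num)) x).hasDerivAt
    have el := comp1 (f := fun z : ℝ × ℝ => z.1) (z := (x, y)) hl1 h1
    have hy2 : HasDerivAt (fun t : ℝ => ε ^ 2 / (2 * t ^ 2)) (-(ε ^ 2 / y ^ 3)) y := by
      have hq : HasDerivAt (fun t : ℝ => 2 * t ^ 2) (2 * (2 * y)) y := by
        have := (hasDerivAt_pow 2 y).const_mul 2
        refine this.congr_deriv ?_
        norm_num
      have := (hasDerivAt_const y (ε ^ 2)).div hq (by positivity)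
      refine this.congr_deriv ?_
      field_simp
      ring
    have ey := comp1 (f := fun z : ℝ × ℝ => z.2) (z := (x, y)) hy2 h2
    have h := ((el.mul h1).mul eom1).mul ey
    have e : (fun z : ℝ × ℝ => PsE κ l ε z.1 z.2) =
        fun z : ℝ × ℝ => l z.1 * z.1 * om1 κ (z.1 + z.2) * (ε ^ 2 / (2 * z.2 ^ 2)) := by
      funext z
      unfold PsE
      ring
    rw [e]
    refine h.congr_fderiv ?_
    ext
    · simp [lin]
      linear_combination (x * (ε ^ 2 / (2 * y ^ 2))) * hlk
    · simp [lin]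
      field_simp
      linear_combination (ε ^ 2 * y) * hlk
  · have hJ : HasDerivAt (JJ l) (1 - l x) x := by
      have hc : Continuous (fun t => 1 - l t) := continuous_const.sub hl.c1.continuous
      exact intervalIntegral.integral_hasDerivAt_right (hc.intervalIntegrable _ _)
        (hc.stronglyMeasurableAtFilter _ _) hc.continuousAt
    have eJ := comp1 (f := fun z : ℝ × ℝ => z.1) (z := (x, y)) hJ h1
    have h := (eom.sub (eJ.const_mul (om1 κ 2))).neg
    refine h.congr_fderiv ?_
    ext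
    · simp [lin]
      linear_combination (-1 : ℝ) * hlo
    · simp [lin]

end Pool.Agent.W696.BQ.JB
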